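import Pool.Agent.Helper27.BG.St4

/-!
# BG: module CS2 (volume of a cell for the square of the marginal)
-/

set_option autoImplicit false

noncomputable section

namespace Pool.Agent.Helper27.BG

open Finset MeasureTheory

section
variable {ι : Type} [Fintype ι] [DecidableEq ι]

/-- gluing of the variables outside `m` and of the two copies of the variable `m` -/
private def cPhi (m : ι) (z : ({h : ι // h ≠ m} → ℝ) × (ℝ × ℝ)) : Option ι → ℝ
  | none => z.2.2
  | some h => if hm : h ≠ m then z.1 ⟨h, hm⟩ else z.2.1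

private lemma cPhi_none (m : ι) (z : ({h : ι // h ≠ m} → ℝ) × (ℝ × ℝ)) :
    cPhi m z none = z.2.2 := rfl

private lemma cPhi_m (m : ι) (z : ({h : ι // h ≠ m} → ℝ) × (ℝ × ℝ)) :
    cPhi m z (some m) = z.2.1 := by
  simp [cPhi]

private lemma cPhi_ne (m : ι) (z : ({h : ι // h ≠ m} → ℝ) × (ℝ × ℝ)) (h : ι) (hm : h ≠ m) :
    cPhi m z (some h) = z.1 ⟨h, hm⟩ := by
  simp [cPhi, hm]

private lemma cPhi_meas (m : ι) : Measurable (cPhi m) := by
  rw [measurable_pi_iff]
  rintro (_ | h)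
  · exact measurable_snd.snd
  · by_cases hm : h ≠ m
    · have : (fun x : ({h : ι // h ≠ m} → ℝ) × (ℝ × ℝ) => cPhi m x (some h)) =
          fun x => x.1 ⟨h, hm⟩ := by
        funext x; exact cPhi_ne m x h hm
      rw [this]
      exact (measurable_pi_apply _).comp measurable_fst
    · have hm' : h = m := not_not.1 hm
      subst hm'
      have : (fun x : ({h' : ι // h' ≠ h} → ℝ) × (ℝ × ℝ) => cPhi h x (some h)) =
          fun x => x.2.1 := by
        funext x; exact cPhi_m h x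
      rw [this]
      exact measurable_snd.fst

private lemma cPhi_mp (m : ι) : MeasurePreserving (cPhi m) volume volume := by
  refine ⟨cPhi_meas m, ?_⟩
  symm
  refine Measure.pi_eq fun s hs => ?_
  rw [Measure.map_apply (cPhi_meas m) (MeasurableSet.univ_pi hs)]
  have h1 : cPhi m ⁻¹' Set.pi Set.univ s =
      (Set.pi Set.univ fun h : {h : ι // h ≠ m} => s (some h)) ×ˢ (s (some m) ×ˢ s none) := by
    ext z
    simp only [Set.mem_preimage, Set.mem_pi, Set.mem_univ, true_implies, Set.mem_prod]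
    constructor
    · intro h
      refine ⟨fun k => ?_, ?_, ?_⟩
      · have := h (some k.1)
        rwa [cPhi_ne m z k.1 k.2] at this
      · have := h (some m)
        rwa [cPhi_m] at this
      · exact h none
    · rintro ⟨h2, h3, h4⟩ (_ | h)
      · exact h4
      · by_cases hm : h ≠ m
        · rw [cPhi_ne m z h hm]; exact h2 ⟨h, hm⟩
        · have hm' : h = m := not_not.1 hm
          subst hm'
          rw [cPhi_m]; exact h3
  rw [h1, Measure.volume_eq_prod, Measure.prod_prod, Measure.volume_eq_prod, Measure.prod_prod,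
    volume_pi_pi, Fintype.prod_option]
  have h2 : ∏ i : ι, volume (s (some i)) =
      volume (s (some m)) * ∏ h : {h : ι // h ≠ m}, volume (s (some h.1)) := by
    rw [← Finset.mul_prod_erase univ _ (Finset.mem_univ m)]
    congr 1
    exact Finset.prod_subtype (univ.erase m) (by simp) (fun h => volume (s (some h)))
  rw [h2]
  ring

/-- one coordinate of the section -/
private def cA (k t : ℕ) (s : ℝ) : Set ℝ :=
  {a | 0 ≤ a ∧ ⌊1000 * a⌋₊ = k ∧ ⌊1000 * (s + a)⌋₊ = t}

private lemma cA_vol (k t t0 : ℕ) (s : ℝ) (hs : 0 ≤ s) (h0 : ⌊1000 * s⌋₊ = t0) :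
    (volume (cA k t s)).toReal = 1 / 1000 * cw t0 t k (1000 * s - t0) := by
  rw [Nat.floor_eq_iff (by positivity)] at h0
  have hmem : ∀ a, a ∈ cA k t s ↔ (k : ℝ) ≤ 1000 * a ∧ 1000 * a < k + 1 ∧
      (t : ℝ) ≤ 1000 * (s + a) ∧ 1000 * (s + a) < t + 1 := by
    intro a
    unfold cA
    rw [Set.mem_setOf_eq]
    constructor
    · rintro ⟨h1, h2, h3⟩
      rw [Nat.floor_eq_iff (by positivity)] at h2 h3
      exact ⟨h2.1, h2.2, h3.1, h3.2⟩
    · rintro ⟨h1, h2, h3, h4⟩
      have h5 : (0 : ℝ) ≤ 1000 * a := le_trans (Nat.cast_nonneg _) h1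
      have h6 : 0 ≤ a := by linarith
      refine ⟨h6, ?_, ?_⟩
      · rw [Nat.floor_eq_iff h5]; exact ⟨h1, h2⟩
      · rw [Nat.floor_eq_iff (by positivity)]; exact ⟨h3, h4⟩
  unfold cw
  split_ifs with h1 h2
  · have h3 : cA k t s = Set.Ico ((k : ℝ) / 1000) ((k + 1 - (1000 * s - t0)) / 1000) := by
      ext a
      rw [hmem, Set.mem_Ico, div_le_iff₀ (by norm_num), lt_div_iff₀ (by norm_num), h1]
      push_cast
      constructor
      · rintro ⟨a1, a2, a3, a4⟩
        constructor <;> linarith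
      · rintro ⟨a1, a2⟩
        refine ⟨by linarith, by linarith, by linarith, by linarith⟩
    rw [h3, Real.volume_Ico, ENNReal.toReal_ofReal (by
      rw [sub_nonneg]
      apply div_le_div_of_nonneg_right _ (by norm_num)
      linarith)]
    ring
  · have h3 : cA k t s = Set.Ico (((k : ℝ) + 1 - (1000 * s - t0)) / 1000) (((k : ℝ) + 1) / 1000) := by
      ext a
      rw [hmem, Set.mem_Ico, div_le_iff₀ (by norm_num), lt_div_iff₀ (by norm_num), h2]
      push_cast
      constructor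
      · rintro ⟨a1, a2, a3, a4⟩
        constructor <;> linarith
      · rintro ⟨a1, a2⟩
        refine ⟨by linarith, by linarith, by linarith, by linarith⟩
    rw [h3, Real.volume_Ico, ENNReal.toReal_ofReal (by
      rw [sub_nonneg]
      apply div_le_div_of_nonneg_right _ (by norm_num)
      linarith)]
    ring
  · have h3 : cA k t s = ∅ := by
      rw [Set.eq_empty_iff_forall_notMem]
      intro a ha
      rw [hmem] at ha
      obtain ⟨a1, a2, a3, a4⟩ := ha
      have h4 : t0 + k < t + 1 := by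
        have : ((t0 + k : ℕ) : ℝ) < ((t + 1 : ℕ) : ℝ) := by push_cast; linarith
        exact_mod_cast this
      have h5 : t < t0 + k + 2 := by
        have : (t : ℝ) < ((t0 + k + 2 : ℕ) : ℝ) := by push_cast; linarith
        exact_mod_cast this
      omega
    rw [h3]
    simp

private lemma floor_meas {α : Type} [MeasurableSpace α] {f : α → ℝ} (hf : Measurable f) (t : ℕ) :
    MeasurableSet {u | ⌊f u⌋₊ = t} :=
  (Nat.measurable_floor.comp hf) (measurableSet_singleton t)

private lemma cs1_meas (i : ι → ℕ) (t : ℕ) : MeasurableSet (cs1 i t) := by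
  have h1 : cs1 i t = (⋂ h, ({u : ι → ℝ | 0 ≤ u h} ∩ {u | ⌊1000 * u h⌋₊ = i h})) ∩
      {u | ⌊1000 * ∑ h, u h⌋₊ = t} := by
    ext u
    simp only [cs1, Set.mem_setOf_eq, Set.mem_inter_iff, Set.mem_iInter]
  rw [h1]
  refine MeasurableSet.inter (MeasurableSet.iInter fun h => MeasurableSet.inter ?_ ?_) ?_
  · exact measurableSet_le measurable_const (measurable_pi_apply h)
  · exact floor_meas (by fun_prop) _
  · exact floor_meas (by fun_prop) _

private lemma IH_meas (j : ℕ) : MeasurableSet (IH ι j) := by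
  have h1 : IH ι j = (⋂ h, ({u : ι → ℝ | 0 ≤ u h} ∩ {u | u h < 1})) ∩
      {u | ⌊∑ h, u h⌋₊ = j} := by
    ext u
    simp only [IH, Set.mem_setOf_eq, Set.mem_inter_iff, Set.mem_iInter]
  rw [h1]
  refine MeasurableSet.inter (MeasurableSet.iInter fun h => MeasurableSet.inter ?_ ?_) ?_
  · exact measurableSet_le measurable_const (measurable_pi_apply h)
  · exact measurableSet_lt (measurable_pi_apply h) measurable_const
  · exact floor_meas (by fun_prop) _

private lemma cs2_meas (m : ι) (i : ι → ℕ) (i' t0 t1 t2 : ℕ) :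
    MeasurableSet (cs2 m i i' t0 t1 t2) := by
  have h1 : cs2 m i i' t0 t1 t2 = (⋂ h, {u : Option ι → ℝ | 0 ≤ u h}) ∩
      ((⋂ h, {u : Option ι → ℝ | ⌊1000 * u (some h)⌋₊ = i h}) ∩
      ({u : Option ι → ℝ | ⌊1000 * u none⌋₊ = i'} ∩
      ({u : Option ι → ℝ | ⌊1000 * ∑ h ∈ univ.erase m, u (some h)⌋₊ = t0} ∩
      ({u : Option ι → ℝ | ⌊1000 * ∑ h, u (some h)⌋₊ = t1} ∩
      {u : Option ι → ℝ | ⌊1000 * (∑ h ∈ univ.erase m, u (some h) + u none)⌋₊ = t2})))) := by
    ext u
    simp only [cs2, Set.mem_setOf_eq, Set.mem_inter_iff, Set.mem_iInter]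
  rw [h1]
  refine MeasurableSet.inter (MeasurableSet.iInter fun h => ?_)
    (MeasurableSet.inter (MeasurableSet.iInter fun h => ?_)
    (MeasurableSet.inter ?_ (MeasurableSet.inter ?_ (MeasurableSet.inter ?_ ?_))))
  · exact measurableSet_le measurable_const (measurable_pi_apply h)
  · exact floor_meas (by fun_prop) _
  · exact floor_meas (by fun_prop) _
  · exact floor_meas (by fun_prop) _
  · exact floor_meas (by fun_prop) _
  · exact floor_meas (by fun_prop) _

/-- The section. -/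
private lemma cs2_section (m : ι) (i : ι → ℕ) (i' t0 t1 t2 : ℕ) (v : {h : ι // h ≠ m} → ℝ) :
    (Prod.mk v ⁻¹' (cPhi m ⁻¹' cs2 m i i' t0 t1 t2)) =
      {z : ℝ × ℝ | v ∈ cs1 (fun h : {h : ι // h ≠ m} => i h) t0 ∧
        z.1 ∈ cA (i m) t1 (∑ h, v h) ∧ z.2 ∈ cA i' t2 (∑ h, v h)} := by
  ext z
  have hs : ∑ h ∈ univ.erase m, cPhi m (v, z) (some h) = ∑ h, v h := by
    rw [Finset.sum_subtype (univ.erase m) (p := fun h => h ≠ m) (by simp)]
    exact Finset.sum_congr rfl fun h _ => cPhi_ne m (v, z) h.1 h.2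
  have hs' : ∑ h, cPhi m (v, z) (some h) = ∑ h, v h + z.1 := by
    rw [← Finset.add_sum_erase univ _ (Finset.mem_univ m), hs, cPhi_m]
    ring
  simp only [Set.mem_preimage, cs2, Set.mem_setOf_eq, cs1, cA, hs, hs', cPhi_none]
  constructor
  · rintro ⟨a1, a2, a3, a4, a5, a6⟩
    refine ⟨⟨fun h => ⟨?_, ?_⟩, a4⟩, ⟨?_, ?_, a5⟩, ⟨?_, a3, a6⟩⟩
    · have := a1 (some h.1)
      rwa [cPhi_ne m (v, z) h.1 h.2] at this
    · have := a2 h.1
      rwa [cPhi_ne m (v, z) h.1 h.2] at this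
    · have := a1 (some m)
      rwa [cPhi_m] at this
    · have := a2 m
      rwa [cPhi_m] at this
    · exact a1 none
  · rintro ⟨⟨b1, b2⟩, ⟨b3, b4, b5⟩, ⟨b6, b7, b8⟩⟩
    refine ⟨?_, ?_, b7, b2, b5, b8⟩
    · rintro (_ | h)
      · exact b6
      · by_cases hm : h ≠ m
        · rw [cPhi_ne m (v, z) h hm]; exact (b1 ⟨h, hm⟩).1
        · have hm' : h = m := not_not.1 hm
          subst hm'
          rw [cPhi_m]; exact b3
    · intro h
      by_cases hm : h ≠ m
      · rw [cPhi_ne m (v, z) h hm]; exact (b1 ⟨h, hm⟩).2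
      · have hm' : h = m := not_not.1 hm
        subst hm'
        rw [cPhi_m]; exact b4

/-- Change of variables. -/
private lemma cv (c : ι → ℝ) (g : (ι → ℝ) → ℝ) :
    ∫ v, g v = (1 / 1000) ^ Fintype.card ι * ∫ θ : ι → ℝ, g ((1 / 1000 : ℝ) • (θ + c)) := by
  have h1 : ∫ θ : ι → ℝ, g ((1 / 1000 : ℝ) • (θ + c)) = ∫ θ : ι → ℝ, g ((1 / 1000 : ℝ) • θ) :=
    integral_add_right_eq_self (fun θ : ι → ℝ => g ((1 / 1000 : ℝ) • θ)) c
  rw [h1, Measure.integral_comp_smul, Module.finrank_fintype_fun_eq_card, smul_eq_mul, abs_of_pos (by positivity)]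
  rw [← mul_assoc, mul_inv_cancel₀ (by positivity), one_mul]

end

theorem hCs2 : StCs2 := by
  intro ι _ _ m i i' t0 t1 t2
  have hmp := cPhi_mp m
  have hcm := cs2_meas m i i' t0 t1 t2
  have hn : ∑ h ∈ univ.erase m, i h = ∑ h : {h : ι // h ≠ m}, i h :=
    Finset.sum_subtype (univ.erase m) (by simp) i
  rw [hn]
  -- the volume as an integral over the other variables
  have h1 : (volume (cs2 m i i' t0 t1 t2)).toReal =
      ∫ v : {h : ι // h ≠ m} → ℝ,
        (volume (Prod.mk v ⁻¹' (cPhi m ⁻¹' cs2 m i i' t0 t1 t2))).toReal := by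
    have hS : MeasurableSet (cPhi m ⁻¹' cs2 m i i' t0 t1 t2) := cPhi_meas m hcm
    rw [← hmp.measure_preimage hcm.nullMeasurableSet, Measure.volume_eq_prod,
      Measure.prod_apply hS, integral_toReal]
    · exact (measurable_measure_prodMk_left hS).aemeasurable
    · refine Filter.Eventually.of_forall fun v => ?_
      rw [cs2_section]
      refine lt_of_le_of_lt (measure_mono (t := Set.Icc (0 : ℝ) ((i m + 1 : ℝ) / 1000) ×ˢ
        Set.Icc (0 : ℝ) ((i' + 1 : ℝ) / 1000)) ?_) ?_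
      · rintro z ⟨_, h2, h3⟩
        obtain ⟨c1, c2, _⟩ := h2
        obtain ⟨d1, d2, _⟩ := h3
        rw [Nat.floor_eq_iff (by positivity)] at c2 d2
        refine ⟨⟨c1, ?_⟩, ⟨d1, ?_⟩⟩
        · rw [le_div_iff₀ (by norm_num)]; linarith [c2.2]
        · rw [le_div_iff₀ (by norm_num)]; linarith [d2.2]
      · rw [Measure.volume_eq_prod, Measure.prod_prod]
        exact ENNReal.mul_lt_top (by simp [Real.volume_Icc]) (by simp [Real.volume_Icc])
  -- the section
  have h2 : ∀ v : {h : ι // h ≠ m} → ℝ,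
      (volume (Prod.mk v ⁻¹' (cPhi m ⁻¹' cs2 m i i' t0 t1 t2))).toReal =
      Set.indicator (cs1 (fun h : {h : ι // h ≠ m} => i h) t0)
        (fun v => (1 / 1000 * cw t0 t1 (i m) (1000 * ∑ h, v h - t0)) *
          (1 / 1000 * cw t0 t2 i' (1000 * ∑ h, v h - t0))) v := by
    intro v
    rw [cs2_section]
    by_cases hv : v ∈ cs1 (fun h : {h : ι // h ≠ m} => i h) t0
    · rw [Set.indicator_of_mem hv]
      have h3 : {z : ℝ × ℝ | v ∈ cs1 (fun h : {h : ι // h ≠ m} => i h) t0 ∧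
          z.1 ∈ cA (i m) t1 (∑ h, v h) ∧ z.2 ∈ cA i' t2 (∑ h, v h)} =
          cA (i m) t1 (∑ h, v h) ×ˢ cA i' t2 (∑ h, v h) := by
        ext z
        simp only [Set.mem_setOf_eq, Set.mem_prod, hv, true_and]
      have h4 : 0 ≤ ∑ h, v h := Finset.sum_nonneg fun h _ => (hv.1 h).1
      rw [h3, Measure.volume_eq_prod, Measure.prod_prod, ENNReal.toReal_mul,
        cA_vol _ _ t0 _ h4 hv.2, cA_vol _ _ t0 _ h4 hv.2]
    · rw [Set.indicator_of_notMem hv]
      have h3 : {z : ℝ × ℝ | v ∈ cs1 (fun h : {h : ι // h ≠ m} => i h) t0 ∧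
          z.1 ∈ cA (i m) t1 (∑ h, v h) ∧ z.2 ∈ cA i' t2 (∑ h, v h)} = ∅ := by
        ext z
        simp only [Set.mem_setOf_eq, hv, false_and, Set.mem_empty_iff_false]
      rw [h3]
      simp
  rw [h1, integral_congr_ae (Filter.Eventually.of_forall h2),
    cv (fun h : {h : ι // h ≠ m} => (i h : ℝ))]
  -- membership in the cell after the substitution
  have hmem : ∀ θ : {h : ι // h ≠ m} → ℝ,
      ((1 / 1000 : ℝ) • (θ + fun h : {h : ι // h ≠ m} => (i h : ℝ))) ∈
        cs1 (fun h : {h : ι // h ≠ m} => i h) t0 ↔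
      ∑ h : {h : ι // h ≠ m}, i h ≤ t0 ∧
        θ ∈ IH {h : ι // h ≠ m} (t0 - ∑ h : {h : ι // h ≠ m}, i h) := by
    intro θ
    have e1 : ∀ h, 1000 * ((1 / 1000 : ℝ) • (θ + fun h : {h : ι // h ≠ m} => (i h : ℝ))) h =
        θ h + i h := by
      intro h
      simp only [Pi.smul_apply, Pi.add_apply, smul_eq_mul]
      ring
    have e2 : 1000 * ∑ h, ((1 / 1000 : ℝ) • (θ + fun h : {h : ι // h ≠ m} => (i h : ℝ))) h =
        ∑ h, θ h + ((∑ h : {h : ι // h ≠ m}, i h : ℕ) : ℝ) := by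
      rw [Finset.mul_sum, Finset.sum_congr rfl fun h _ => e1 h, Finset.sum_add_distrib]
      push_cast
      rfl
    unfold cs1 IH
    simp only [Set.mem_setOf_eq, e2]
    have e3 : (∀ h, 0 ≤ ((1 / 1000 : ℝ) • (θ + fun h : {h : ι // h ≠ m} => (i h : ℝ))) h ∧
        ⌊1000 * ((1 / 1000 : ℝ) • (θ + fun h : {h : ι // h ≠ m} => (i h : ℝ))) h⌋₊ = i h) ↔
        ∀ h, 0 ≤ θ h ∧ θ h < 1 := by
      refine forall_congr' fun h => ?_
      rw [e1 h]
      have e4 : 0 ≤ ((1 / 1000 : ℝ) • (θ + fun h : {h : ι // h ≠ m} => (i h : ℝ))) h ↔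
          0 ≤ θ h + i h := by
        rw [← e1 h]
        constructor <;> intro h' <;> linarith
      rw [e4]
      constructor
      · rintro ⟨h5, h6⟩
        rw [Nat.floor_eq_iff h5] at h6
        constructor <;> linarith [h6.1, h6.2]
      · rintro ⟨h5, h6⟩
        have h7 : (0 : ℝ) ≤ θ h + i h := by positivity
        refine ⟨h7, ?_⟩
        rw [Nat.floor_eq_iff h7]
        constructor <;> linarith
    rw [e3]
    constructor
    · rintro ⟨h5, h6⟩
      have h7 : 0 ≤ ∑ h, θ h := Finset.sum_nonneg fun h _ => (h5 h).1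
      rw [Nat.floor_add_natCast h7] at h6
      exact ⟨by omega, h5, by omega⟩
    · rintro ⟨h5, h6, h7⟩
      have h8 : 0 ≤ ∑ h, θ h := Finset.sum_nonneg fun h _ => (h6 h).1
      refine ⟨h6, ?_⟩
      rw [Nat.floor_add_natCast h8]
      omega
  have hsum : ∀ θ : {h : ι // h ≠ m} → ℝ,
      1000 * ∑ h, ((1 / 1000 : ℝ) • (θ + fun h : {h : ι // h ≠ m} => (i h : ℝ))) h =
        ∑ h, θ h + ((∑ h : {h : ι // h ≠ m}, i h : ℕ) : ℝ) := by
    intro θ
    rw [Finset.mul_sum]
    push_cast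
    rw [← Finset.sum_add_distrib]
    refine Finset.sum_congr rfl fun h _ => ?_
    simp only [Pi.smul_apply, Pi.add_apply, smul_eq_mul]
    ring
  have hcard : Fintype.card ι + 1 = Fintype.card {h : ι // h ≠ m} + 2 := by
    have : Fintype.card {h : ι // h ≠ m} = Fintype.card ι - 1 := by
      simp [Fintype.card_subtype_compl]
    have h0 : 0 < Fintype.card ι := Fintype.card_pos_iff.2 ⟨m⟩
    omega
  by_cases hle : ∑ h : {h : ι // h ≠ m}, i h ≤ t0
  · rw [if_pos hle, hcard, pow_add, mul_assoc]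
    congr 1
    rw [← integral_indicator (IH_meas _), ← integral_const_mul]
    refine integral_congr_ae (Filter.Eventually.of_forall fun θ => ?_)
    by_cases hθ : θ ∈ IH {h : ι // h ≠ m} (t0 - ∑ h : {h : ι // h ≠ m}, i h)
    · show Set.indicator _ _ _ = (1 / 1000 : ℝ) ^ 2 * Set.indicator _ _ _
      rw [Set.indicator_of_mem ((hmem θ).2 ⟨hle, hθ⟩), Set.indicator_of_mem hθ]
      have e5 : 1000 * ∑ h, ((1 / 1000 : ℝ) • (θ + fun h : {h : ι // h ≠ m} => (i h : ℝ))) h -
          (t0 : ℝ) = ∑ h, θ h - ((t0 - ∑ h : {h : ι // h ≠ m}, i h : ℕ) : ℝ) := by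
        rw [hsum, Nat.cast_sub hle]
        ring
      rw [e5]
      ring
    · show Set.indicator _ _ _ = (1 / 1000 : ℝ) ^ 2 * Set.indicator _ _ _
      rw [Set.indicator_of_notMem (fun h => hθ ((hmem θ).1 h).2), Set.indicator_of_notMem hθ,
        mul_zero]
  · rw [if_neg hle]
    have h5 : ∀ θ : {h : ι // h ≠ m} → ℝ,
        Set.indicator (cs1 (fun h : {h : ι // h ≠ m} => i h) t0)
        (fun v => (1 / 1000 * cw t0 t1 (i m) (1000 * ∑ h, v h - t0)) *
          (1 / 1000 * cw t0 t2 i' (1000 * ∑ h, v h - t0)))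
        ((1 / 1000 : ℝ) • (θ + fun h : {h : ι // h ≠ m} => (i h : ℝ))) = 0 := by
      intro θ
      exact Set.indicator_of_notMem (fun h => hle ((hmem θ).1 h).1) _
    rw [integral_congr_ae (Filter.Eventually.of_forall h5)]
    simp

end Pool.Agent.Helper27.BG
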